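import Pool.Agent.V8H94.TS.Defs

/-!
# Higher Chow groups, correspondences and Weil-étale cohomology of varieties over finite fields
-/

set_option autoImplicit false

namespace Pool.Agent.V8H71.CL

open Module Pool.Agent.V8H94.TC Pool.Agent.V8H94.TV
open Pool.Agent.V8H94.CT (AbVar)

section

/-- An operation of the algebra `R` on the vector space `V`. -/
def Operation (K R V : Type) [Field K] [Ring R] [Algebra K R] [AddCommGroup V] [Module K V] : Type :=
  R →ₐ[K] Module.End K V

/-- Linear maps. -/
def Linear (K V V' : Type) [Field K] [AddCommGroup V] [Module K V] [AddCommGroup V']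
    [Module K V'] : Type := V →ₗ[K] V'

/-- Bilinear maps. -/
def Bilinear (K V V' V'' : Type) [Field K] [AddCommGroup V] [Module K V] [AddCommGroup V']
    [Module K V'] [AddCommGroup V''] [Module K V''] : Type := V →ₗ[K] V' →ₗ[K] V''

/-- The element `r` of `R` applied to the vector `x`. -/
def app {K R V : Type} [Field K] [Ring R] [Algebra K R] [AddCommGroup V] [Module K V]
    (f : Operation K R V) (r : R) (x : V) : V := (show R →ₐ[K] Module.End K V from f) r x

/-- The value of a linear map. -/
def app₁ {K V V' : Type} [Field K] [AddCommGroup V] [Module K V] [AddCommGroup V']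
    [Module K V'] (f : Linear K V V') (x : V) : V' := (show V →ₗ[K] V' from f) x

/-- The value of a bilinear map. -/
def app₂ {K V V' V'' : Type} [Field K] [AddCommGroup V] [Module K V] [AddCommGroup V']
    [Module K V'] [AddCommGroup V''] [Module K V''] (f : Bilinear K V V' V'') (x : V) (y : V') : V'' :=
  (show V →ₗ[K] V' →ₗ[K] V'' from f) x y

end

variable {p : ℕ} [Fact p.Prime] {Ω : Type} [Field Ω] [CharZero Ω]

/-- The dimension of the abelian variety `A`. -/
noncomputable def dimAb (A : AbVar p Ω) : ℕ := finrank Ω A.H / 2

/-- The cohomology of `A` as a vector space. -/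
def CohAb (A : AbVar p Ω) : Type := ExteriorAlgebra Ω A.H

noncomputable instance instGrpAb (A : AbVar p Ω) : AddCommGroup (CohAb A) :=
  (inferInstance : AddCommGroup (ExteriorAlgebra Ω A.H))

noncomputable instance instModAb (A : AbVar p Ω) : Module Ω (CohAb A) :=
  (inferInstance : Module Ω (ExteriorAlgebra Ω A.H))

/-- The Frobenius endomorphism of the cohomology of `A`. -/
noncomputable def frobAb (A : AbVar p Ω) (x : CohAb A) : CohAb A := extMap A.F x

/-- The higher Chow groups and the correspondences of degree zero of the abelian variety `A`: cycles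
over the algebraic closure, with coefficients in `Ω`. -/
structure AbChow (A : AbVar p Ω) : Type 1 where
  /-- the group `CH ^ n (A, j)`, for `j = 0` the Chow group of cycles of codimension `n` -/
  chA : ℕ → ℕ → Type
  [grpA : ∀ n j, AddCommGroup (chA n j)]
  [modA : ∀ n j, Module Ω (chA n j)]
  /-- the ring of correspondences of degree zero, cycles of codimension `dim A` on `A × A` -/
  corA : Type
  [ringA : Ring corA]
  [algA : Algebra Ω corA]
  /-- the cycle class (for `j = 0`), zero for `j > 0` -/
  clA : ∀ n j, Linear Ω (chA n j) (CohAb A)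
  /-- the operation of correspondences on the groups `CH ^ n (A, j)` -/
  opA : ∀ n j, Operation Ω corA (chA n j)
  /-- the operation of correspondences on the cohomology -/
  realA : Operation Ω corA (CohAb A)
  /-- the graph of Frobenius -/
  frA : corA
  /-- the exterior product of two cycles, as a correspondence -/
  rkA : ∀ n, chA n 0 → chA (dimAb A - n) 0 → corA
  /-- Poincaré duality -/
  dualA : Bilinear Ω (CohAb A) (CohAb A) Ω

attribute [instance] AbChow.grpA AbChow.modA AbChow.ringA AbChow.algA

section

variable {A : AbVar p Ω}

/-- The class of `a` in the cohomology. -/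
noncomputable def classA (C : AbChow A) (n j : ℕ) (a : C.chA n j) : CohAb A := app₁ (C.clA n j) a

/-- The correspondence `r` applied to `a`. -/
def actA (C : AbChow A) (n j : ℕ) (r : C.corA) (a : C.chA n j) : C.chA n j := app (C.opA n j) r a

/-- The correspondence `r` applied to the cohomology class `x`. -/
noncomputable def homA (C : AbChow A) (r : C.corA) (x : CohAb A) : CohAb A := app C.realA r x

/-- Poincaré duality. -/
noncomputable def pairA (C : AbChow A) (x y : CohAb A) : Ω := app₂ C.dualA x y

/-- The power of the graph of Frobenius. -/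
def graphA (C : AbChow A) (s : ℕ) : C.corA := C.frA ^ s

/-- The properties of the higher Chow groups and of the ring of correspondences; the motive of `A` is
finite-dimensional. -/
structure IsAbChow (C : AbChow A) : Prop where
  hom_graph : ∀ x, homA C (graphA C 1) x = frobAb A x
  hom_class : ∀ n r a, homA C r (classA C n 0 a) = classA C n 0 (actA C n 0 r a)
  /-- the weight of `CH ^ n (A, j)` is `2 n`, which is not the weight `2 n - j` of the cohomology -/
  class_pos : ∀ n j a, 0 < j → classA C n j a = 0
  /-- the elements are defined over a finite field, and Frobenius acts as a power of `q` -/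
  act_graph : ∀ n j a, ∃ s : ℕ, 0 < s ∧ actA C n j (graphA C s) a = (p : Ω) ^ (A.m * n * s) • a
  act_rk : ∀ n ≤ dimAb A, ∀ a b c, actA C n 0 (C.rkA n a b) c =
    pairA C (classA C n 0 c) (classA C (dimAb A - n) 0 b) • a
  /-- exterior products of cycles act through `CH ^ 0 (point, j) = 0` -/
  act_rk_pos : ∀ n ≤ dimAb A, ∀ j a b c, 0 < j → actA C n j (C.rkA n a b) c = 0
  hom_rk : ∀ n ≤ dimAb A, ∀ a b x, homA C (C.rkA n a b) x =
    pairA C x (classA C (dimAb A - n) 0 b) • classA C n 0 a
  /-- Poincaré duality -/
  left : ∀ x, (∀ y, pairA C x y = 0) → x = 0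
  right : ∀ y, (∀ x, pairA C x y = 0) → y = 0
  equivariant : ∀ x y, pairA C (frobAb A x) (frobAb A y) = (p : Ω) ^ (A.m * dimAb A) * pairA C x y
  /-- homologically trivial correspondences are nilpotent (Kimura and O'Sullivan) -/
  nilpotent : ∀ r, (∀ x, homA C r x = 0) → IsNilpotent r

/-- `x` is the class of a cycle of codimension `n`. -/
def IsClassA (C : AbChow A) (n : ℕ) (x : Coh A) : Prop := ∃ a, classA C n 0 a = x

/-- The conjectures of Beilinson and Parshin for `A`: an element of `CH ^ n (A, j)` with the class zero
is zero. So homologically trivial cycles are rationally equivalent to zero (`j = 0`), and the higher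
Chow groups vanish (`j > 0`). -/
def FaithfulAb (C : AbChow A) : Prop := ∀ n j a, classA C n j a = 0 → a = 0

end

/-- The higher Chow groups of the abelian varieties `A` and of all `X × A`, and the correspondences of
degree zero of the varieties `X`: cycles over the algebraic closure, with coefficients in `Ω`. -/
structure Motives (p : ℕ) [Fact p.Prime] {Ω : Type} [Field Ω] [CharZero Ω] (T : Varieties Ω) :
    Type 1 where
  abelian : ∀ A : AbVar p Ω, AbChow A
  /-- the group `CH ^ n (X × A, j)` -/
  chX : T.V → AbVar p Ω → ℕ → ℕ → Type
  [grpX : ∀ X A n j, AddCommGroup (chX X A n j)]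
  [modX : ∀ X A n j, Module Ω (chX X A n j)]
  /-- the cycle class (for `j = 0`), zero for `j > 0` -/
  clX : ∀ X A n j, Linear Ω (chX X A n j) (Coh₂ T X A)
  /-- the ring of correspondences of degree zero, cycles of codimension `dim X` on `X × X` -/
  corX : T.V → Type
  [ringX : ∀ X, Ring (corX X)]
  [algX : ∀ X, Algebra Ω (corX X)]
  /-- the operation of the correspondences of `X` on the groups `CH ^ n (X × A, j)` -/
  opX : ∀ X A n j, Operation Ω (corX X) (chX X A n j)
  /-- the operation on the cohomology of `X` -/
  realX : ∀ X, Operation Ω (corX X) (T.H X)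
  /-- the exterior product of correspondences -/
  crossX : ∀ X Y, Bilinear Ω (corX X) (corX Y) (corX (T.prod X Y))
  /-- the composites of correspondences `X → B → X`, `B` an abelian variety -/
  through : ∀ X, Set (corX X)
  /-- Poincaré duality on `X` -/
  dualX : ∀ X, Bilinear Ω (T.H X) (T.H X) Ω

attribute [instance] Motives.grpX Motives.modX Motives.ringX Motives.algX

section

variable {T : Varieties Ω} (M : Motives p T)

/-- The class of `a` in the cohomology. -/
noncomputable def classX (X : T.V) (A : AbVar p Ω) (n j : ℕ) (a : M.chX X A n j) : Coh₂ T X A :=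
  app₁ (M.clX X A n j) a

/-- The correspondence `r` of `X` applied to `a`. -/
def actX (X : T.V) (A : AbVar p Ω) (n j : ℕ) (r : M.corX X) (a : M.chX X A n j) :
    M.chX X A n j := app (M.opX X A n j) r a

/-- The correspondence `r` applied to the cohomology class `x`. -/
def homX (X : T.V) (r : M.corX X) (x : T.H X) : T.H X := app (M.realX X) r x

/-- Poincaré duality on `X`. -/
def pairX (X : T.V) (x y : T.H X) : Ω := app₂ (M.dualX X) x y

/-- The exterior product of the correspondences `r` of `X` and `s` of `Y`. -/
def prodX (X Y : T.V) (r : M.corX X) (s : M.corX Y) : M.corX (T.prod X Y) :=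
  app₂ (M.crossX X Y) r s

/-- The composite of correspondences. -/
def compX (X : T.V) (r s : M.corX X) : M.corX X := r * s

/-- The diagonal of `X`. -/
def diagX (X : T.V) : M.corX X := 1

/-- The class `t` on `X × A` is the class of a cycle of codimension `n`. -/
def IsClassX (X : T.V) (A : AbVar p Ω) (n : ℕ) (t : Coh₂ T X A) : Prop :=
  ∃ a, classX M X A n 0 a = t

/-- The conjectures of Beilinson and Parshin for `X × A`: an element of `CH ^ n (X × A, j)` with the
class zero is zero. So homologically trivial cycles are rationally equivalent to zero (`j = 0`), and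
the higher Chow groups vanish (`j > 0`). -/
def Faithful (X : T.V) (A : AbVar p Ω) : Prop := ∀ n j a, classX M X A n j a = 0 → a = 0

/-- The correspondence `r` is homologically trivial. -/
def IsTrivial (X : T.V) (r : M.corX X) : Prop := ∀ x, homX M X r x = 0

/-- Homologically trivial elements of the Chow group of cycles of codimension `dim X` on `X × X` are
nilpotent correspondences. -/
def HomNilpotent (X : T.V) : Prop := ∀ r : M.corX X, IsTrivial M X r → IsNilpotent r

/-- The correspondence `r` maps `z` to a nonzero multiple of `⟨z, x⟩ x'`. -/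
def IsRankOne (X : T.V) (x x' : T.H X) (r : M.corX X) : Prop :=
  ∃ c : Ω, c ≠ 0 ∧ ∀ z, homX M X r z = (c * pairX M X z x) • x'

/-- The correspondence `r` maps `a` to zero if `b`, an element with the class zero of a group
`CH ^ k (B, j)`, `B` abelian, is zero. -/
def ActsThrough (X : T.V) (A : AbVar p Ω) (n j : ℕ) (r : M.corX X) (a : M.chX X A n j) : Prop :=
  ∃ (B : AbVar p Ω) (k : ℕ) (b : (M.abelian B).chA k j), classA (M.abelian B) k j b = 0 ∧
    (b = 0 → actX M X A n j r a = 0)

end

/-- The product of `y` and `y'` is a nonzero multiple of the class of a point of the abelian variety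
`B` of dimension `g`. -/
def AreComplementary (B : AbVar p Ω) (g : ℕ) (y y' : Coh B) : Prop :=
  ∃ (b : Basis (Fin (2 * g)) Ω B.H) (c : Ω), c ≠ 0 ∧ y * y' = c • point B b

/-- The properties of the groups and of the correspondences. The system `Z` consists of the linear
combinations of the classes of cycles. -/
structure IsMotives {T : Varieties Ω} (Z : Cycles p T) (M : Motives p T) : Prop where
  abelian : ∀ A, IsAbChow (M.abelian A)
  range_ab : ∀ A n x, IsClassA (M.abelian A) n x ↔ x ∈ Z.S.C A ∧ IsTate A n x
  range : ∀ X A n t, IsClassX M X A n t ↔ t ∈ Z.C X A ∧ IsGenTate T X A n t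
  class_pos : ∀ X A n j a, 0 < j → classX M X A n j a = 0
  /-- Poincaré duality -/
  left : ∀ X x, (∀ y, pairX M X x y = 0) → x = 0
  right : ∀ X y, (∀ x, pairX M X x y = 0) → y = 0
  equivariant : ∀ X x y,
    pairX M X (frob T X 1 x) (frob T X 1 y) = (p : Ω) ^ (T.m X * T.dim X) * pairX M X x y
  prod_one : ∀ X Y, prodX M X Y (diagX M X) (diagX M Y) = diagX M (T.prod X Y)
  prod_comp : ∀ X Y r s r' s', prodX M X Y (compX M X r s) (compX M Y r' s') =
    compX M (T.prod X Y) (prodX M X Y r r') (prodX M X Y s s')
  /-- the pull-back `a` of the cycle `r` from `X × X` to `X × X × A` -/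
  pull : ∀ X A r, IsTrivial M X r → ∃ a, classX M (T.prod X X) A (T.dim X) 0 a = 0 ∧
    (a = 0 → r = 0)

/-- The properties of the correspondences which factor through abelian varieties. -/
structure IsThrough {T : Varieties Ω} (M : Motives p T) : Prop where
  /-- `(v ∘ u) × (v' ∘ u')` is the composite of `u × u'` and `v × v'` -/
  prod : ∀ X Y, ∀ r ∈ M.through X, ∀ s ∈ M.through Y, prodX M X Y r s ∈ M.through (T.prod X Y)
  /-- `v ∘ u` acts on `a` as the composite of `u` and `v`; `b = u a` -/
  act : ∀ X A n j, ∀ r ∈ M.through X, ∀ a, classX M X A n j a = 0 → ActsThrough M X A n j r a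
  /-- the composite `v ∘ u` of cycles `u` and `v` on `X × B` with the classes `x ⊗ y` and
  `x' ⊗ y'` -/
  comp : ∀ X B g n n' x x' y y', IsClassX M X B n (times T X B x y) →
    IsClassX M X B n' (times T X B x' y') → AreComplementary B g y y' → n + n' = T.dim X + g →
    ∃ r ∈ M.through X, IsRankOne M X x x' r

/-- Weil-étale motivic cohomology: `weA A s n i` is `H ^ i_W (A, ℤ (n))` over the field with
`p ^ (m s)` elements, `m = A.m`, and `weX X A s n i` is `H ^ i_W (X × A, ℤ (n))` over the field with
`p ^ (m s)` elements, `m = T.m X * A.m`. -/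
structure WeilEtale (p : ℕ) [Fact p.Prime] {Ω : Type} [Field Ω] [CharZero Ω] (T : Varieties Ω) :
    Type 1 where
  weA : AbVar p Ω → ℕ → ℕ → ℤ → Type
  [grpWA : ∀ A s n i, AddCommGroup (weA A s n i)]
  weX : T.V → AbVar p Ω → ℕ → ℕ → ℤ → Type
  [grpWX : ∀ X A s n i, AddCommGroup (weX X A s n i)]

attribute [instance] WeilEtale.grpWA WeilEtale.grpWX

/-- The conjecture of Lichtenbaum for `A` over all finite extensions of its field of definition: the
groups `H ^ i_W (A, ℤ (n))` are finitely generated. -/
def LichtenbaumAb {T : Varieties Ω} (G : WeilEtale p T) (A : AbVar p Ω) : Prop :=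
  ∀ s, 0 < s → ∀ n i, AddGroup.FG (G.weA A s n i)

/-- The conjecture of Lichtenbaum for `X × A` over all finite extensions of a field of definition: the
groups `H ^ i_W (X × A, ℤ (n))` are finitely generated. -/
def Lichtenbaum {T : Varieties Ω} (G : WeilEtale p T) (X : T.V) (A : AbVar p Ω) : Prop :=
  ∀ s, 0 < s → ∀ n i, AddGroup.FG (G.weX X A s n i)

/-- The theorem of Geisser: the Weil-étale motivic cohomology groups of a smooth projective variety are
finitely generated (for all degrees and weights, over all finite extensions) if and only if for this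
variety the strong Tate conjecture holds, homologically trivial cycles are rationally trivial, and the
higher Chow groups are torsion. -/
structure IsWeilEtale {T : Varieties Ω} (Z : Cycles p T) (M : Motives p T) (G : WeilEtale p T) :
    Prop where
  abelian : ∀ A, LichtenbaumAb G A ↔ (∀ r, TateHolds Z.S A r) ∧ FaithfulAb (M.abelian A)
  times : ∀ X A, Lichtenbaum G X A ↔ StrongTate Z X A ∧ Faithful M X A

end Pool.Agent.V8H71.CL
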