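import Pool.Agent.V8H71.CL.Defs
import Pool.Agent.V8H94.TX.Main
import Pool.Agent.V8H94.CX.Main

/-!
# Finite generation of Weil-étale cohomology: the proof
-/

set_option autoImplicit false

namespace Pool.Agent.V8H71.CL

open Module Pool.Agent.V8H94.TC Pool.Agent.V8H94.TV
open Pool.Agent.V8H94.TS (SlopesAtLeast TateInDegrees AreTate)
open Pool.Agent.V8H94.TX (TateWithSupersingular)
open Pool.Agent.V8H94.CT (AbVar zeroVar)

variable {p : ℕ} [Fact p.Prime] {Ω : Type} [Field Ω] [CharZero Ω]

section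

/-- The Chow groups as a structure of `V8H94.CW`. -/
noncomputable def AbChow.toChow {A : AbVar p Ω} (C : AbChow A) :
    V8H94.CW.Chow Ω (V8H94.CX.CohAb A) (V8H94.CX.frobAb A) ((p : Ω) ^ A.m) (V8H94.CX.dimAb A) where
  M n := C.chA n 0
  grp n := C.grpA n 0
  mod n := C.modA n 0
  R := C.corA
  ring := C.ringA
  alg := C.algA
  cl n := C.clA n 0
  deg n := (show CohAb A →ₗ[Ω] CohAb A →ₗ[Ω] Ω from C.dualA).compl₁₂
    (show C.chA n 0 →ₗ[Ω] CohAb A from C.clA n 0)
    (show C.chA (dimAb A - n) 0 →ₗ[Ω] CohAb A from C.clA (dimAb A - n) 0)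
  act n := C.opA n 0
  real := C.realA
  fr := C.frA
  rk := C.rkA
  B := C.dualA

theorem IsAbChow.isChow {A : AbVar p Ω} {C : AbChow A} (h : IsAbChow C) :
    V8H94.CW.IsChow C.toChow where
  real_fr := by
    refine LinearMap.ext fun x => ?_
    have h1 := h.hom_graph x
    rw [graphA, pow_one] at h1
    exact h1
  real_cl := h.hom_class
  act_fr n a := by
    obtain ⟨s, hs, h1⟩ := h.act_graph n 0 a
    refine ⟨s, hs, ?_⟩
    rw [← pow_mul, ← mul_assoc]
    exact h1
  act_rk := h.act_rk
  real_rk := h.hom_rk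
  left := h.left
  right := h.right
  equivariant x y := by
    rw [← pow_mul]
    exact h.equivariant x y
  nilpotent r hr := h.nilpotent r fun x => by
    have h1 : ∀ y : V8H94.CX.CohAb A, C.toChow.real r y = 0 := fun y => by
      rw [hr, LinearMap.zero_apply]
    exact h1 x

variable {T : Varieties Ω} {Z : Cycles p T} {M : Motives p T}

theorem strongTateAt_ab [IsAlgClosed Ω] (hM : IsMotives Z M) (A : AbVar p Ω)
    (hT : ∀ r, TateHolds Z.S A r) (n : ℕ) :
    V8H94.CW.StrongTateAt (M.abelian A).toChow n := by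
  intro k _ s hs x hx
  obtain ⟨h1, h2⟩ := V8H1.CX.gen_ab A hs x hx Z.S hT
  obtain ⟨a, ha⟩ := (hM.range_ab A k x).2 ⟨h1, h2⟩
  exact ⟨a, ha⟩

theorem eq_zero_of_tate (A : AbVar p Ω) {n : ℕ} (hn : dimAb A < n) {x : Coh A}
    (hx : IsTate A n x) : x = 0 := by
  have h1 : x ∈ (⋀[Ω]^(2 * n) A.H : Submodule Ω (ExteriorAlgebra Ω A.H)) := hx.1
  have h2 : finrank Ω A.H < 2 * n := by
    unfold dimAb at hn
    omega
  have h3 : finrank Ω (⋀[Ω]^(2 * n) A.H) = 0 := by
    rw [exteriorPower.finrank_eq, Nat.choose_eq_zero_of_lt h2]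
  have h4 : (⋀[Ω]^(2 * n) A.H : Submodule Ω (ExteriorAlgebra Ω A.H)) = ⊥ :=
    Submodule.finrank_eq_zero.1 h3
  rw [h4] at h1
  exact (Submodule.mem_bot Ω).1 h1

/-- The conjectures of Beilinson and Parshin for abelian varieties follow from the conjecture of
Tate. -/
theorem faithfulAb [IsAlgClosed Ω] (hM : IsMotives Z M) (A : AbVar p Ω)
    (hT : ∀ r, TateHolds Z.S A r) : FaithfulAb (M.abelian A) := by
  intro n j a ha
  have hp : (p : Ω) ≠ 0 := Nat.cast_ne_zero.2 (Fact.out : p.Prime).ne_zero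
  have hC := hM.abelian A
  let ρ : (M.abelian A).toChow.R →ₐ[Ω] Module.End Ω ((M.abelian A).chA n j) :=
    (M.abelian A).opA n j
  have hρ : ∀ a : (M.abelian A).chA n j, ∃ s : ℕ, 0 < s ∧
      ρ ((M.abelian A).toChow.fr ^ s) a = ((p : Ω) ^ A.m) ^ (n * s) • a := by
    intro a
    obtain ⟨s, hs, h⟩ := hC.act_graph n j a
    refine ⟨s, hs, ?_⟩
    rw [← pow_mul, ← mul_assoc]
    exact h
  by_cases hn : n ≤ dimAb A
  · refine V8H94.CW.core_module hC.isChow (pow_ne_zero _ hp) hn (strongTateAt_ab hM A hT n) ρ a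
      (hρ a) fun z _ z' => ?_
    rcases Nat.eq_zero_or_pos j with rfl | hj
    · have h1 := hC.act_rk n hn (show (M.abelian A).chA n 0 from z)
        (show (M.abelian A).chA (dimAb A - n) 0 from z') a
      rw [ha] at h1
      have h2 : pairA (M.abelian A) 0 (classA (M.abelian A) (dimAb A - n) 0
          (show (M.abelian A).chA (dimAb A - n) 0 from z')) = 0 := by
        change (show CohAb A →ₗ[Ω] CohAb A →ₗ[Ω] Ω from (M.abelian A).dualA) 0 _ = 0
        rw [map_zero, LinearMap.zero_apply]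
      rw [h2, zero_smul] at h1
      exact h1
    · exact hC.act_rk_pos n hn j z z' a hj
  · have : Subsingleton ((M.abelian A).chA n j) := by
      refine V8H94.CW.parshin_large hC.isChow (fun s hs x hx => ?_) ρ hρ
      have h1 : IsGen (V8H94.CX.frobAb A ^ s) (((p : Ω) ^ A.m) ^ (n * s)) x := by
        refine ⟨1, ?_⟩
        rw [pow_one, LinearMap.sub_apply, hx, LinearMap.smul_apply, LinearMap.id_apply, sub_self]
      exact eq_zero_of_tate A (not_le.1 hn) (V8H1.CX.gen_ab A hs x h1 Z.S hT).2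
    exact Subsingleton.elim _ _

/-- The motive of `X` is a retract of a sum of motives of abelian varieties, with twists. -/
def IsRetract (M : Motives p T) (X : T.V) : Prop := (1 : M.corX X) ∈ Ideal.span (M.through X)

theorem prodX_mul (hM : IsMotives Z M) (X Y : T.V) (r s : M.corX X) (r' s' : M.corX Y) :
    prodX M X Y (r * s) (r' * s') = prodX M X Y r r' * prodX M X Y s s' :=
  hM.prod_comp X Y r s r' s'

theorem cross_mem (hM : IsMotives Z M) (hT : IsThrough M) {X Y : T.V} {a : M.corX X}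
    (ha : a ∈ Ideal.span (M.through X)) {b : M.corX Y} (hb : b ∈ Ideal.span (M.through Y)) :
    prodX M X Y a b ∈ Ideal.span (M.through (T.prod X Y)) := by
  let f : M.corX X →ₗ[Ω] M.corX Y →ₗ[Ω] M.corX (T.prod X Y) := M.crossX X Y
  have hf : ∀ a b, prodX M X Y a b = f a b := fun _ _ => rfl
  induction ha using Submodule.span_induction with
  | zero => rw [hf, map_zero, LinearMap.zero_apply]; exact Submodule.zero_mem _
  | add x y _ _ hx hy =>
    rw [hf, map_add, LinearMap.add_apply]; exact Submodule.add_mem _ hx hy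
  | smul r x _ hx =>
    have h : prodX M X Y (r • x) b = prodX M X Y r 1 * prodX M X Y x b := by
      rw [← prodX_mul hM, one_mul]
      rfl
    rw [h]
    exact Ideal.mul_mem_left _ _ hx
  | mem x hx =>
    induction hb using Submodule.span_induction with
    | zero => rw [hf, map_zero]; exact Submodule.zero_mem _
    | add y z _ _ hy hz => rw [hf, map_add]; exact Submodule.add_mem _ hy hz
    | smul r y _ hy =>
      have h : prodX M X Y x (r • y) = prodX M X Y 1 r * prodX M X Y x y := by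
        rw [← prodX_mul hM, one_mul]
        rfl
      rw [h]
      exact Ideal.mul_mem_left _ _ hy
    | mem y hy => exact Ideal.subset_span (hT.prod X Y x hx y hy)

theorem IsRetract.prod (hM : IsMotives Z M) (hT : IsThrough M) {X Y : T.V} (hX : IsRetract M X)
    (hY : IsRetract M Y) : IsRetract M (T.prod X Y) := by
  have h : (1 : M.corX (T.prod X Y)) = prodX M X Y 1 1 := (hM.prod_one X Y).symm
  rw [IsRetract, h]
  exact cross_mem hM hT hX hY

theorem faithful_of_retract (hT : IsThrough M) {X : T.V} (hX : IsRetract M X)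
    (hab : ∀ B, FaithfulAb (M.abelian B)) (A : AbVar p Ω) : Faithful M X A := by
  intro n j a ha
  let ρ : M.corX X →ₐ[Ω] Module.End Ω (M.chX X A n j) := M.opX X A n j
  have h : ∀ r ∈ Ideal.span (M.through X), ρ r a = 0 := by
    intro r hr
    induction hr using Submodule.span_induction with
    | zero => rw [map_zero, LinearMap.zero_apply]
    | add x y _ _ hx hy => rw [map_add, LinearMap.add_apply, hx, hy, add_zero]
    | smul r x _ hx => rw [smul_eq_mul, map_mul, Module.End.mul_apply, hx, map_zero]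
    | mem x hx =>
      obtain ⟨B, k, b, hb, h⟩ := hT.act X A n j x hx a ha
      exact h (hab B k j b hb)
  have h1 := h 1 hX
  rwa [map_one, Module.End.one_apply] at h1

/-- The strong Tate conjecture for all `X × B`, and the nilpotence of homologically trivial
correspondences of `X`, imply that the motive of `X` is a retract. -/
theorem isRetract_of_strong [IsAlgClosed Ω] (hM : IsMotives Z M) (hT : IsThrough M) {X : T.V}
    (hX : IsSmoothProjective p T X) (hstr : ∀ A, StrongTate Z X A)
    (hsemi : Submodule.span Ω {x : T.H X | ∃ i, x ∈ T.gr X i ∧ ∃ a : Ω, T.F X x = a • x} = ⊤)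
    (hnil : HomNilpotent M X) : IsRetract M X := by
  have hp : (p : Ω) ≠ 0 := Nat.cast_ne_zero.2 (Fact.out : p.Prime).ne_zero
  let real : M.corX X →ₐ[Ω] Module.End Ω (T.H X) := M.realX X
  let B : T.H X →ₗ[Ω] T.H X →ₗ[Ω] Ω := M.dualX X
  have h1 : (1 : Module.End Ω (T.H X)) ∈ (Submodule.span Ω (M.through X)).map
      real.toLinearMap := by
    refine V8H40.CX.one_mem_of_dual (T.F X)
      {x : T.H X | ∃ i, x ∈ T.gr X i ∧ ∃ a : Ω, T.F X x = a • x} hsemi
      (fun x hx => hx.choose_spec.2) B (hM.left X) (hM.right X)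
      ((p : Ω) ^ (T.m X * T.dim X)) (pow_ne_zero _ hp) (fun x y => ?_) _
      (fun x' hx' a c x ha hc hac f hf => ?_)
    · have := hM.equivariant X x y
      rw [V8H94.TV.frob, V8H94.TV.frob, pow_one] at this
      exact this
    · by_cases h0 : x' = 0
      · have : f = 0 := LinearMap.ext fun z => by rw [hf z, h0, smul_zero, LinearMap.zero_apply]
        rw [this]
        exact Submodule.zero_mem _
      · obtain ⟨i, hi, -⟩ := hx'
        have hpure : V8H94.VT.IsPure p (T.m X * i) a := by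
          have := hX.deligne i x' hi a h0 (by rw [V8H94.TV.frob, pow_one]; exact ha)
          exact this
        obtain ⟨B', g, b, y, y', k, n, n', hk, hyy, hn, hu, hv⟩ :=
          V8H94.CX.exists_dual_pair hX.m_pos ha hc hpure hac
        obtain ⟨r, hr, c', hc', h⟩ := hT.comp X B' g n n' x x' y y'
          ((hM.range X B' n _).2 ⟨hstr B' n _ hu, hu⟩)
          ((hM.range X B' n' _).2 ⟨hstr B' n' _ hv, hv⟩) ⟨b, k, hk, hyy⟩ hn
        refine ⟨c'⁻¹ • r, Submodule.smul_mem _ _ (Submodule.subset_span hr), ?_⟩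
        refine LinearMap.ext fun z => ?_
        have h2 : real (c'⁻¹ • r) z = c'⁻¹ • real r z := by
          rw [map_smul, LinearMap.smul_apply]
        have h3 : real r z = (c' * B z x) • x' := h z
        change real (c'⁻¹ • r) z = f z
        rw [h2, h3, hf z, smul_smul, ← mul_assoc, inv_mul_cancel₀ hc', one_mul]
  obtain ⟨r, hr, h⟩ := h1
  have hr' : r ∈ Ideal.span (M.through X) := by
    have : Submodule.span Ω (M.through X) ≤ (Ideal.span (M.through X)).restrictScalars Ω :=
      Submodule.span_le.2 fun x hx => Ideal.subset_span hx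
    exact this hr
  refine V8H94.CX.one_mem_span _ hr' (hnil _ fun x => ?_)
  change real (1 - r) x = 0
  have h4 : real (1 - r) = 0 := by
    rw [map_sub, map_one]
    exact sub_eq_zero.2 h.symm
  rw [h4, LinearMap.zero_apply]

end

/-- **The main theorem.** -/
theorem main [IsAlgClosed Ω] (H : Cohomology p Ω) (Z : Cycles p H.T) (W : Set H.T.V)
    (c : H.T.V → ℕ → ℕ)
    (hc : ∀ X ∈ W, ∀ i ≤ H.T.dim X, 2 * c X i ≤ i ∧ SlopesAtLeast p H.T X i (c X i))
    (hcyc : AreTate Z)
    (M : Motives p H.T) (hM : IsMotives Z M) (hT : IsThrough M)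
    (G : WeilEtale p H.T) (hG : IsWeilEtale Z M G) :
    [(∀ A : AbVar p Ω, LichtenbaumAb G A) ∧
      ∀ X, IsProduct H.T W X → ∀ A : AbVar p Ω, Lichtenbaum G X A,
    (∀ A : AbVar p Ω, (∀ r, TateHolds Z.S A r) ∧ FaithfulAb (M.abelian A)) ∧
      ∀ X, IsProduct H.T W X → ∀ A : AbVar p Ω, StrongTate Z X A ∧ Faithful M X A,
    (∀ A : AbVar p Ω, TateHolds Z.S A 1) ∧ TateWithSupersingular Z.S ∧
      ∀ X ∈ W, (∀ i ≤ H.T.dim X, TateInDegrees Z X i (i - 2 * c X i) (i - c X i)) ∧
        HomNilpotent M X].TFAE := by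
  tfae_have 1 ↔ 2 := by
    constructor
    · rintro ⟨h1, h2⟩
      exact ⟨fun A => (hG.abelian A).1 (h1 A), fun X hX A => (hG.times X A).1 (h2 X hX A)⟩
    · rintro ⟨h1, h2⟩
      exact ⟨fun A => (hG.abelian A).2 (h1 A), fun X hX A => (hG.times X A).2 (h2 X hX A)⟩
  tfae_have 2 → 3 := by
    rintro ⟨h1, h2⟩
    refine ⟨fun A => (h1 A).1 1, fun B v _ _ ht => (h1 B).1 2 _ ht,
      fun X hX => ⟨fun i _ => ?_, ?_⟩⟩
    · intro B x _ b _ ht
      exact (h2 X (IsProduct.of X hX) B).1 _ _ ht
    · intro r hr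
      let A : AbVar p Ω := zeroVar p Ω 1 one_pos
      obtain ⟨a, ha, h⟩ := hM.pull X A r hr
      have h3 := (h2 (H.T.prod X X) (IsProduct.prod X X (IsProduct.of X hX) (IsProduct.of X hX)) A).2
        (H.T.dim X) 0 a ha
      rw [h h3]
      exact IsNilpotent.zero
  tfae_have 3 → 2 := by
    rintro ⟨hdiv, h1, h2⟩
    obtain ⟨h3, h4⟩ := (V8H94.TX.main H Z W c hc).2 ⟨hdiv, h1, fun X hX => (h2 X hX).1⟩
    have hAV : ∀ A, FaithfulAb (M.abelian A) := fun A => faithfulAb hM A (h3 A).2
    have hret : ∀ X, IsProduct H.T W X → IsRetract M X := by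
      intro X hX
      induction hX with
      | of X hX =>
        exact isRetract_of_strong hM hT (H.smooth X) (fun A => (h4 X (IsProduct.of X hX) A).1)
          (V8H94.CX.semi_homogeneous (fun Y A r t ht ht' => hcyc Y A r t ht ht')
            fun A => (h4 X (IsProduct.of X hX) A).1) (h2 X hX).2
      | prod X Y _ _ hX hY => exact hX.prod hM hT hY
    exact ⟨fun A => ⟨(h3 A).2, hAV A⟩, fun X hX A => ⟨(h4 X hX A).1,
      faithful_of_retract hT (hret X hX) hAV A⟩⟩
  tfae_finish

end Pool.Agent.V8H71.CL
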